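import Pool.Agent.H487.MI.Stm0

set_option autoImplicit false

namespace Pool.Agent.H337.MI

open Pool.Agent.H487.MI

/-- `K` = image of `{0, …, ⌊2R⌋} × {-⌈2R⌉ - 1, …, ⌈2R⌉}` under `(a, b) ↦ (a + b i) / 2`; for `z` take
`a = ⌊2 Re z⌋`, `b = ⌊2 Im z⌋`. The number of points is at most `(2R+1)(4R+4) ≤ 3R · 8R ≤ 100 R²`. -/
theorem grid : S_GRID := by
  classical
  intro R hR
  refine ⟨((Finset.Icc (0 : ℤ) ⌊2 * R⌋) ×ˢ (Finset.Icc (-⌈2 * R⌉ - 1) ⌈2 * R⌉)).image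
    (fun p : ℤ × ℤ => (⟨(p.1 : ℝ) / 2, (p.2 : ℝ) / 2⟩ : ℂ)), ?_, ?_⟩
  · have h1 : ((((Finset.Icc (0 : ℤ) ⌊2 * R⌋) ×ˢ (Finset.Icc (-⌈2 * R⌉ - 1) ⌈2 * R⌉)).image
        (fun p : ℤ × ℤ => (⟨(p.1 : ℝ) / 2, (p.2 : ℝ) / 2⟩ : ℂ))).card : ℝ) ≤
        (((Finset.Icc (0 : ℤ) ⌊2 * R⌋) ×ˢ (Finset.Icc (-⌈2 * R⌉ - 1) ⌈2 * R⌉)).card : ℝ) := by
      exact_mod_cast Finset.card_image_le
    refine h1.trans ?_
    rw [Finset.card_product, Int.card_Icc, Int.card_Icc, Nat.cast_mul]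
    have hf : 0 ≤ ⌊2 * R⌋ := Int.floor_nonneg.2 (by linarith)
    have hc : 0 ≤ ⌈2 * R⌉ := Int.ceil_nonneg (by linarith)
    have e1 : (((⌊2 * R⌋ + 1 - 0).toNat : ℕ) : ℝ) = (⌊2 * R⌋ : ℝ) + 1 := by
      have h2 : (((⌊2 * R⌋ + 1 - 0).toNat : ℕ) : ℤ) = ⌊2 * R⌋ + 1 := by
        rw [Int.toNat_of_nonneg (by omega)]
        ring
      have h3 : ((((⌊2 * R⌋ + 1 - 0).toNat : ℕ) : ℤ) : ℝ) = ((⌊2 * R⌋ + 1 : ℤ) : ℝ) := by rw [h2]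
      push_cast at h3
      exact h3
    have e2 : (((⌈2 * R⌉ + 1 - (-⌈2 * R⌉ - 1)).toNat : ℕ) : ℝ) = 2 * (⌈2 * R⌉ : ℝ) + 2 := by
      have h2 : (((⌈2 * R⌉ + 1 - (-⌈2 * R⌉ - 1)).toNat : ℕ) : ℤ) = 2 * ⌈2 * R⌉ + 2 := by
        rw [Int.toNat_of_nonneg (by omega)]
        ring
      have h3 : ((((⌈2 * R⌉ + 1 - (-⌈2 * R⌉ - 1)).toNat : ℕ) : ℤ) : ℝ) =
        ((2 * ⌈2 * R⌉ + 2 : ℤ) : ℝ) := by rw [h2]
      push_cast at h3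
      exact h3
    rw [e1, e2]
    have g1 := Int.floor_le (2 * R)
    have g2 := (Int.ceil_lt_add_one (2 * R)).le
    have hf' : (0 : ℝ) ≤ (⌊2 * R⌋ : ℝ) := by exact_mod_cast hf
    have hc' : (0 : ℝ) ≤ (⌈2 * R⌉ : ℝ) := by exact_mod_cast hc
    calc ((⌊2 * R⌋ : ℝ) + 1) * (2 * (⌈2 * R⌉ : ℝ) + 2) ≤ (3 * R) * (8 * R) := by
          apply mul_le_mul (by linarith) (by linarith) (by linarith) (by linarith)
      _ ≤ 100 * R ^ 2 := by nlinarith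
  · intro z hz0 hzR
    have hre : |z.re| ≤ ‖z‖ := Complex.abs_re_le_norm z
    have him : |z.im| ≤ ‖z‖ := Complex.abs_im_le_norm z
    have a1 := Int.floor_le (2 * z.re)
    have a2 := Int.lt_floor_add_one (2 * z.re)
    have b1 := Int.floor_le (2 * z.im)
    have b2 := Int.lt_floor_add_one (2 * z.im)
    have a0 : 0 ≤ ⌊2 * z.re⌋ := Int.floor_nonneg.2 (by linarith)
    have a0' : (0 : ℝ) ≤ (⌊2 * z.re⌋ : ℝ) := by exact_mod_cast a0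
    have hk : ‖z - (⟨(⌊2 * z.re⌋ : ℝ) / 2, (⌊2 * z.im⌋ : ℝ) / 2⟩ : ℂ)‖ ≤ 1 := by
      refine (Complex.norm_le_abs_re_add_abs_im _).trans ?_
      rw [Complex.sub_re, Complex.sub_im]
      have h1 : |z.re - (⌊2 * z.re⌋ : ℝ) / 2| ≤ 1 / 2 := by
        rw [abs_le]
        constructor <;> linarith
      have h2 : |z.im - (⌊2 * z.im⌋ : ℝ) / 2| ≤ 1 / 2 := by
        rw [abs_le]
        constructor <;> linarith
      linarith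
    refine ⟨⟨(⌊2 * z.re⌋ : ℝ) / 2, (⌊2 * z.im⌋ : ℝ) / 2⟩, ?_, hk, ?_, ?_, ?_⟩
    · rw [Finset.mem_image]
      refine ⟨(⌊2 * z.re⌋, ⌊2 * z.im⌋), ?_, rfl⟩
      rw [Finset.mem_product, Finset.mem_Icc, Finset.mem_Icc]
      have hr := (abs_le.1 hre).2
      obtain ⟨i1, i2⟩ := abs_le.1 him
      refine ⟨⟨a0, Int.floor_le_floor (by linarith)⟩, ?_, ?_⟩
      · show -⌈2 * R⌉ - 1 ≤ ⌊2 * z.im⌋
        rw [Int.le_floor]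
        push_cast
        have := Int.le_ceil (2 * R)
        linarith
      · show ⌊2 * z.im⌋ ≤ ⌈2 * R⌉
        have h1 : (⌊2 * z.im⌋ : ℝ) ≤ ((⌈2 * R⌉ : ℤ) : ℝ) := by
          have := Int.le_ceil (2 * R)
          linarith
        exact_mod_cast h1
    · show (0 : ℝ) ≤ (⌊2 * z.re⌋ : ℝ) / 2
      linarith
    · show z.re - 1 ≤ (⌊2 * z.re⌋ : ℝ) / 2
      linarith
    · have h1 := norm_sub_norm_le (⟨(⌊2 * z.re⌋ : ℝ) / 2, (⌊2 * z.im⌋ : ℝ) / 2⟩ : ℂ) z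
      rw [norm_sub_rev] at h1
      linarith

end Pool.Agent.H337.MI
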